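import Pool.Agent.Helper69.ST.GoalsR

namespace Pool.Agent.Helper31.ST.HU

open Set Metric

theorem t : Helper69.ST.S_HU := by
  intro U hU hb hc K hK hKc
  have hne : (Uᶜ : Set ℂ).Nonempty := by
    by_contra h
    rw [Set.not_nonempty_iff_eq_empty, Set.compl_empty_iff] at h
    rw [h] at hb
    exact (NormedSpace.unbounded_univ ℝ ℂ) hb
  obtain ⟨z₀, hz₀⟩ := hne
  have hsub : (Uᶜ : Set ℂ) ⊆ Kᶜ := compl_subset_compl.mpr hK
  refine ⟨(connectedComponentIn Kᶜ z₀)ᶜ, ?_, ?_, ?_, ?_⟩
  · have h1 : IsOpen (connectedComponentIn Kᶜ z₀) := hKc.isClosed.isOpen_compl.connectedComponentIn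
    have h2 : (connectedComponentIn Kᶜ z₀)ᶜ ⊆ U :=
      compl_subset_comm.mp (hc.subset_connectedComponentIn hz₀ hsub)
    exact Metric.isCompact_of_isClosed_isBounded h1.isClosed_compl (hb.subset h2)
  · have := connectedComponentIn_subset Kᶜ z₀
    exact subset_compl_comm.mp this
  · exact compl_subset_comm.mp (hc.subset_connectedComponentIn hz₀ hsub)
  · rw [compl_compl]
    exact isPreconnected_connectedComponentIn

end Pool.Agent.Helper31.ST.HU
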